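import Pool.Agent.H77.EA.Targets2
import Pool.Agent.H21.AM.A5

/-!
# Module ZH: central characters
-/

open scoped Classical

namespace AMe

open AMc Representation

theorem zh : T_ZH := by
  intro N _ _ a ha z hz
  obtain ⟨n, ρ, hρ, rfl⟩ := ha
  have hzc : ∀ u g : N, (if u * g * u⁻¹ = z then (1 : ℂ) else 0) = if g = z then 1 else 0 := by
    intro u g
    have h1 : u * g * u⁻¹ = z ↔ g = z := by
      have hu : u⁻¹ * z * u = z := by
        rw [mul_assoc, ← Subgroup.mem_center_iff.1 hz u, inv_mul_cancel_left]
      constructor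
      · intro h
        rw [← hu, ← h]
        group
      · rintro rfl
        rw [Subgroup.mem_center_iff.1 hz u, mul_inv_cancel_right]
    by_cases h2 : g = z
    · rw [if_pos h2, if_pos (h1.2 h2)]
    · rw [if_neg h2, if_neg (fun h3 => h2 (h1.1 h3))]
  obtain ⟨c, hc, -⟩ := a5_schur ρ (fun g => if g = z then 1 else 0) hzc
  have hc' : ρ z = c • (1 : Module.End ℂ (Fin n → ℂ)) := by
    rw [← hc, Finset.sum_eq_single z]
    · rw [if_pos rfl, one_smul]
    · intro b _ hb
      rw [if_neg hb, zero_smul]
    · intro h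
      exact absurd (Finset.mem_univ z) h
  have hmul : ∀ g, ρ.character (z * g) = c * ρ.character g := by
    intro g
    show LinearMap.trace ℂ (Fin n → ℂ) (ρ (z * g)) = c * LinearMap.trace ℂ (Fin n → ℂ) (ρ g)
    rw [map_mul, hc', smul_mul_assoc, one_mul, map_smul, smul_eq_mul]
  have h1 : ρ.character 1 = n := by
    rw [Representation.char_one, Module.finrank_fin_fun]
  have hz1 : ρ.character z = c * ρ.character 1 := by
    have := hmul 1
    rwa [mul_one] at this
  have hn : (n : ℂ) ≠ 0 := by
    intro h
    have h0 : n = 0 := by exact_mod_cast h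
    subst h0
    obtain ⟨A, B, hAB⟩ := hρ.toNontrivial.exists_pair_ne
    refine hAB (Subrepresentation.toSubmodule_injective (ρ := ρ) ?_)
    exact Subsingleton.elim _ _
  refine ⟨fun g => ?_, ?_⟩
  · rw [hmul, hz1]
    ring
  · have h2 : ρ.character z / ρ.character 1 = c := by
      rw [hz1, h1, mul_div_assoc, div_self hn, mul_one]
    rw [h2]
    have h3 : ∀ k : ℕ, ρ (z ^ k) = c ^ k • (1 : Module.End ℂ (Fin n → ℂ)) := by
      intro k
      rw [map_pow, hc', smul_pow, one_pow]
    have h4 := h3 (orderOf z)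
    rw [pow_orderOf_eq_one, map_one] at h4
    have h5 := congrArg (LinearMap.trace ℂ (Fin n → ℂ)) h4
    rw [map_smul, LinearMap.trace_one, Module.finrank_fin_fun, smul_eq_mul] at h5
    exact (mul_right_cancel₀ hn (by rw [one_mul]; exact h5)).symm

end AMe
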