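import Pool.Agent.H77.EA.Targets3
import Pool.Agent.H43.EA.EX

/-!
# Module XG: Gallagher's theorem for linear characters
-/

open scoped Classical ComplexConjugate

namespace Pool.Agent.H16.EA

open AMc AMe Representation

theorem irr_of_res {X K : Type} [Group X] [Group K] {n : ℕ} (f : K →* X)
    (ρ : Representation ℂ X (Fin n → ℂ)) (ρK : Representation ℂ K (Fin n → ℂ))
    (hf : ∀ k, ρK k = ρ (f k)) (h : ρK.IsIrreducible) : ρ.IsIrreducible := by
  have hnt : Nontrivial (Subrepresentation ρK) := h.toNontrivial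
  refine { toNontrivial := ?_, eq_bot_or_eq_top := fun W => ?_ }
  · obtain ⟨A, B, hAB⟩ := hnt.exists_pair_ne
    refine ⟨⟨⊥, ⊤, fun hbt => hAB ?_⟩⟩
    have h1 : (⊥ : Submodule ℂ (Fin n → ℂ)) = ⊤ := congrArg Subrepresentation.toSubmodule hbt
    have hs : Subsingleton (Submodule ℂ (Fin n → ℂ)) := subsingleton_of_bot_eq_top h1
    exact Subrepresentation.toSubmodule_injective (Subsingleton.elim _ _)
  · let W' : Subrepresentation ρK :=
      { toSubmodule := W.toSubmodule
        apply_mem_toSubmodule := fun k v hv => by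
          rw [hf]
          exact W.apply_mem_toSubmodule (f k) hv }
    rcases h.eq_bot_or_eq_top W' with h1 | h1
    · left
      have h2 : W.toSubmodule = ⊥ := congrArg Subrepresentation.toSubmodule h1
      exact Subrepresentation.toSubmodule_injective h2
    · right
      have h2 : W.toSubmodule = ⊤ := congrArg Subrepresentation.toSubmodule h1
      exact Subrepresentation.toSubmodule_injective h2

theorem scalar_of_comm {K : Type} [Group K] {n : ℕ} (ρK : Representation ℂ K (Fin n → ℂ))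
    (h : ρK.IsIrreducible) (S : Module.End ℂ (Fin n → ℂ)) (hS : ∀ k, S * ρK k = ρK k * S) :
    ∃ a : ℂ, S = a • (1 : Module.End ℂ (Fin n → ℂ)) := by
  obtain ⟨a, ha⟩ :=
    (Representation.IsIrreducible.algebraMap_intertwiningMap_bijective_of_isAlgClosed
      (k := ℂ) (ρ := ρK)).2 (LinearMap.intertwiningMap_of_isIntertwiningMap ρK ρK S
        (fun k v => congrArg (fun f : Module.End ℂ (Fin n → ℂ) => f v) (hS k)))
  refine ⟨a, LinearMap.ext fun v => ?_⟩
  exact (congrArg (fun φ : Representation.IntertwiningMap ρK ρK => φ.toLinearMap v) ha).symm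

/-- the twist of a representation by a function which is multiplicative on the group -/
noncomputable def twr {Γ : Type} [Group Γ] {X : Subgroup Γ} {n : ℕ}
    (ρ : Representation ℂ X (Fin n → ℂ)) (μ : Γ → ℂ) (h1 : μ 1 = 1)
    (hm : ∀ x ∈ X, ∀ y ∈ X, μ (x * y) = μ x * μ y) : Representation ℂ X (Fin n → ℂ) where
  toFun x := μ x • ρ x
  map_one' := by
    rw [Subgroup.coe_one, h1, one_smul, map_one]
  map_mul' x y := by
    rw [Subgroup.coe_mul, hm x x.2 y y.2, map_mul, smul_mul_smul_comm]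

theorem rho_ne_zero {X : Type} [Group X] {n : ℕ} (hn : 0 < n)
    (ρ : Representation ℂ X (Fin n → ℂ)) (x : X) : ρ x ≠ 0 := by
  intro h
  have h1 : ρ (x * x⁻¹) = 0 := by rw [map_mul, h, zero_mul]
  rw [mul_inv_cancel, map_one] at h1
  have : Nonempty (Fin n) := ⟨⟨0, hn⟩⟩
  have : Nontrivial (Module.End ℂ (Fin n → ℂ)) := inferInstance
  exact one_ne_zero h1

theorem smul_inj {n : ℕ} {a b : ℂ} {A : Module.End ℂ (Fin n → ℂ)} (hA : A ≠ 0)
    (h : a • A = b • A) : a = b := by
  by_contra hab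
  apply hA
  refine LinearMap.ext fun v => ?_
  have h1 : a • A v = b • A v := congrArg (fun f : Module.End ℂ (Fin n → ℂ) => f v) h
  have h2 : (a - b) • A v = 0 := by
    funext i
    have h3 := congrFun h1 i
    rw [Pi.smul_apply, Pi.smul_apply, smul_eq_mul, smul_eq_mul] at h3
    rw [Pi.smul_apply, smul_eq_mul, sub_mul, h3, sub_self]
    rfl
  rcases smul_eq_zero.1 h2 with h3 | h3
  · exact absurd (sub_eq_zero.1 h3) hab
  · exact h3

theorem xg : T_XG := by
  intro Γ _ _ X K hKX hnor θ hθ χ hχ hres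
  obtain ⟨ψ, ⟨n, ρ, hρ, rfl⟩, rfl⟩ := hχ
  obtain ⟨φ, ⟨d, σ, hσ, rfl⟩, rfl⟩ := hθ
  have hn := irr_pos ρ hρ
  let ρK : Representation ℂ K (Fin n → ℂ) := ρ.comp (Subgroup.inclusion hKX)
  have hcK : ρK.character = σ.character := by
    funext k
    have h1 := hres k k.2
    unfold ext0 at h1
    rw [dif_pos (hKX k.2), dif_pos k.2] at h1
    exact h1
  have hirr : ρK.IsIrreducible := Pool.Agent.H43.EA.irr_of_char ρK σ hσ hcK
  -- twists are irreducible
  have htw : ∀ μ ∈ LinF X K 1, ∃ (h1 : μ 1 = 1) (hm : ∀ x ∈ X, ∀ y ∈ X, μ (x * y) = μ x * μ y),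
      (twr ρ μ h1 hm).IsIrreducible ∧
      ext0 X (twr ρ μ h1 hm).character = fun g => μ g * ext0 X ρ.character g := by
    intro μ hμ
    obtain ⟨hz, hK, hm, -⟩ := hμ
    refine ⟨hK 1 K.one_mem, hm, ?_, ?_⟩
    · refine irr_of_res (Subgroup.inclusion hKX) _ ρK (fun k => ?_) hirr
      show ρ (Subgroup.inclusion hKX k) = μ k • ρ (Subgroup.inclusion hKX k)
      rw [hK k k.2, one_smul]
    · funext g
      unfold ext0
      by_cases hg : g ∈ X
      · rw [dif_pos hg, dif_pos hg]
        show LinearMap.trace ℂ _ (μ g • ρ ⟨g, hg⟩) = μ g * LinearMap.trace ℂ _ (ρ ⟨g, hg⟩)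
        rw [map_smul, smul_eq_mul]
      · rw [dif_neg hg, dif_neg hg, mul_zero]
  refine ⟨?_, ?_, ?_⟩
  · intro μ hμ
    obtain ⟨h1, hm, hi, he⟩ := htw μ hμ
    exact ⟨_, ⟨n, _, hi, rfl⟩, he⟩
  · intro χ' hχ' hres'
    obtain ⟨ψ', ⟨n', ρ', hρ', rfl⟩, rfl⟩ := hχ'
    let ρK' : Representation ℂ K (Fin n' → ℂ) := ρ'.comp (Subgroup.inclusion hKX)
    have hcK' : ρK'.character = σ.character := by
      funext k
      have h1 := hres' k k.2
      unfold ext0 at h1
      rw [dif_pos (hKX k.2), dif_pos k.2] at h1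
      exact h1
    have hirr' : ρK'.IsIrreducible := Pool.Agent.H43.EA.irr_of_char ρK' σ hσ hcK'
    obtain ⟨T⟩ := Pool.Agent.H43.EA.equiv_of_char ρK' ρK hirr' hirr (hcK'.trans hcK.symm)
    -- `T` intertwines `ρK` and `ρK'`
    let U : (Fin n → ℂ) ≃ₗ[ℂ] (Fin n' → ℂ) := T.toLinearEquiv
    have hU : ∀ (k : K) (v : Fin n → ℂ), U (ρK k v) = ρK' k (U v) := fun k v =>
      congrArg (fun f : (Fin n → ℂ) →ₗ[ℂ] (Fin n' → ℂ) => f v) (T.isIntertwining' k)
    have hU' : ∀ (k : K) (v : Fin n' → ℂ), U.symm (ρK' k v) = ρK k (U.symm v) := by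
      intro k v
      apply U.injective
      rw [hU, LinearEquiv.apply_symm_apply, LinearEquiv.apply_symm_apply]
    let M : X → Module.End ℂ (Fin n → ℂ) := fun x => U.symm.conj (ρ' x)
    have hMmul : ∀ x y, M (x * y) = M x * M y := by
      intro x y
      show U.symm.conj (ρ' (x * y)) = U.symm.conj (ρ' x) * U.symm.conj (ρ' y)
      rw [map_mul]
      refine LinearMap.ext fun v => ?_
      show U.symm (ρ' x (ρ' y (U v))) = U.symm (ρ' x (U (U.symm (ρ' y (U v)))))
      rw [LinearEquiv.apply_symm_apply]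
    have hMK : ∀ k : K, M (Subgroup.inclusion hKX k) = ρK k := by
      intro k
      refine LinearMap.ext fun v => ?_
      show U.symm (ρK' k (U v)) = ρK k v
      rw [hU', LinearEquiv.symm_apply_apply]
    have hsc : ∀ x : X, ∃ a : ℂ, M x = a • ρ x := by
      intro x
      obtain ⟨a, ha⟩ := scalar_of_comm ρK hirr (ρ x⁻¹ * M x) (by
        intro k
        have hk' : (x : Γ) * k * (x : Γ)⁻¹ ∈ K := hnor x x.2 k k.2
        have e1 : x * Subgroup.inclusion hKX k = Subgroup.inclusion hKX ⟨_, hk'⟩ * x := by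
          ext
          show (x : Γ) * k = (x : Γ) * k * (x : Γ)⁻¹ * x
          group
        have e2 : x⁻¹ * Subgroup.inclusion hKX ⟨_, hk'⟩ = Subgroup.inclusion hKX k * x⁻¹ := by
          ext
          show (x : Γ)⁻¹ * ((x : Γ) * k * (x : Γ)⁻¹) = k * (x : Γ)⁻¹
          group
        rw [mul_assoc, ← hMK k, ← hMmul, e1, hMmul, hMK, ← mul_assoc]
        show ρ x⁻¹ * ρ (Subgroup.inclusion hKX ⟨_, hk'⟩) * M x = M (Subgroup.inclusion hKX k) * _
        rw [← map_mul, e2, map_mul, hMK, mul_assoc]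
        rfl)
      refine ⟨a, ?_⟩
      calc M x = ρ x * (ρ x⁻¹ * M x) := by
            rw [← mul_assoc, ← map_mul, mul_inv_cancel, map_one, one_mul]
        _ = a • ρ x := by rw [ha, mul_smul_comm, mul_one]
    choose a ha using hsc
    have ha1 : ∀ k : K, a (Subgroup.inclusion hKX k) = 1 := by
      intro k
      have h1 := ha (Subgroup.inclusion hKX k)
      rw [hMK] at h1
      refine smul_inj (rho_ne_zero hn ρ (Subgroup.inclusion hKX k)) ?_
      rw [one_smul]
      exact h1.symm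
    have hamul : ∀ x y, a (x * y) = a x * a y := by
      intro x y
      have h1 := ha (x * y)
      rw [hMmul, ha x, ha y, smul_mul_smul_comm, ← map_mul] at h1
      exact smul_inj (rho_ne_zero hn ρ (x * y)) h1.symm
    refine ⟨ext0 X a, ⟨?_, ?_, ?_, ?_⟩, ?_⟩
    · intro g hg
      unfold ext0
      rw [dif_neg hg]
    · intro k hk
      unfold ext0
      rw [dif_pos (hKX hk)]
      exact ha1 ⟨k, hk⟩
    · intro x hx y hy
      unfold ext0
      rw [dif_pos hx, dif_pos hy, dif_pos (X.mul_mem hx hy)]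
      exact hamul ⟨x, hx⟩ ⟨y, hy⟩
    · intro g _
      rw [one_mul, inv_one, mul_one]
    · funext g
      unfold ext0
      by_cases hg : g ∈ X
      · rw [dif_pos hg, dif_pos hg, dif_pos hg]
        show LinearMap.trace ℂ _ (ρ' ⟨g, hg⟩) = a ⟨g, hg⟩ * LinearMap.trace ℂ _ (ρ ⟨g, hg⟩)
        rw [← smul_eq_mul, ← map_smul, ← ha ⟨g, hg⟩]
        exact (LinearMap.trace_conj' (ρ' ⟨g, hg⟩) U.symm).symm
      · rw [dif_neg hg, dif_neg hg, dif_neg hg, mul_zero]
  · intro μ hμ μ' hμ' heq
    obtain ⟨h1, hm, hi, he⟩ := htw μ hμ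
    obtain ⟨h1', hm', hi', he'⟩ := htw μ' hμ'
    have hchar : (twr ρ μ h1 hm).character = (twr ρ μ' h1' hm').character := by
      funext x
      have h2 := congrFun he x
      have h3 := congrFun he' x
      unfold ext0 at h2 h3
      rw [dif_pos x.2, dif_pos x.2] at h2 h3
      have h4 := heq x
      unfold ext0 at h4
      rw [dif_pos x.2] at h4
      exact h2.trans (h4.trans h3.symm)
    obtain ⟨T⟩ := Pool.Agent.H43.EA.equiv_of_char _ _ hi' hi hchar.symm
    let S : Module.End ℂ (Fin n → ℂ) := T.toLinearEquiv.toLinearMap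
    have hS : ∀ x : X, S * (μ x • ρ x) = (μ' x • ρ x) * S := fun x => T.isIntertwining' x
    obtain ⟨a, haS⟩ := scalar_of_comm ρK hirr S (by
      intro k
      have h2 := hS (Subgroup.inclusion hKX k)
      have e1 : μ (Subgroup.inclusion hKX k : X) = 1 := hμ.2.1 k k.2
      have e2 : μ' (Subgroup.inclusion hKX k : X) = 1 := hμ'.2.1 k k.2
      rw [e1, e2, one_smul] at h2
      exact h2)
    have ha0 : a ≠ 0 := by
      rintro rfl
      rw [zero_smul] at haS
      have : Nonempty (Fin n) := ⟨⟨0, hn⟩⟩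
      obtain ⟨v, hv⟩ := exists_ne (0 : Fin n → ℂ)
      apply hv
      apply T.toLinearEquiv.injective
      rw [map_zero]
      exact congrArg (fun f : Module.End ℂ (Fin n → ℂ) => f v) haS
    funext g
    by_cases hg : g ∈ X
    · have h2 := hS ⟨g, hg⟩
      rw [haS, smul_mul_assoc, one_mul, mul_smul_comm, mul_one] at h2
      have h3 := smul_inj (a := a * μ g) (b := a * μ' g) (rho_ne_zero hn ρ ⟨g, hg⟩) (by
        rw [mul_smul, mul_smul]
        exact h2)
      exact mul_left_cancel₀ ha0 h3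
    · rw [hμ.1 g hg, hμ'.1 g hg]

end Pool.Agent.H16.EA
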